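import Pool.Agent.T9h27.Y.Win

/-!
# All windows, with the number of the zeros off the line (helper27)
-/

set_option autoImplicit false

open MeasureTheory Complex Filter Topology Set
open scoped ComplexConjugate

namespace Pool.Agent.T9h27.R

open Pool.Agent.T9h27.Z hiding FD small_win win pos_prop Dat core LSh geo_bd hc_of all_ms up_bound
open Pool.Agent.T9h27.Y hiding win pos_prop core
open H385 (Rw zz)
open H370 (mult zset NN Ns Nd)

/-- the number of the distinct zeros off the critical line -/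
noncomputable def No (F : ℂ → ℂ) (T1 T2 : ℝ) : ℕ :=
  {s : ℂ | s ∈ zset F T1 T2 ∧ s.re ≠ 1 / 2}.ncard

lemma w3_ok {F : ℂ → ℂ} {s : ℂ} (hs : 1 ≤ mult F s) [Decidable (s.re ≠ 1 / 2)] :
    (3 * (mult F s : ℝ) - 2 + if s.re ≠ 1 / 2 then 1 else 0) ≤
      4 * (mult F s : ℝ) - H385.PerChi.kk F s ∧
    (3 * (mult F s : ℝ) - 2 + if s.re ≠ 1 / 2 then 1 else 0) ≤ 3 * (mult F s : ℝ) := by
  have hs' : (1 : ℝ) ≤ (mult F s : ℝ) := by exact_mod_cast hs
  constructor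
  · unfold H385.PerChi.kk
    by_cases h2 : s.re = 1 / 2
    · have h0 : ¬ (s.re ≠ 1 / 2) := fun h => h h2
      by_cases h3 : mult F s = 1
      · have h7 : (mult F s : ℝ) = 1 := by rw [h3]; norm_num
        simp only [if_pos h2, if_pos h3, if_neg h0]; linarith
      · have h4 : 2 ≤ mult F s := by omega
        have h5 : (2 : ℝ) ≤ (mult F s : ℝ) := by exact_mod_cast h4
        simp only [if_pos h2, if_neg h3, if_neg h0]; linarith
    · have h0 : s.re ≠ 1 / 2 := h2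
      simp only [if_neg h2, if_pos h0]; linarith
  · by_cases h2 : s.re ≠ 1 / 2
    · simp only [if_pos h2]; linarith
    · simp only [if_neg h2]; linarith

open Classical in
lemma No_filter {F : ℂ → ℂ} {Z : Finset ℂ} {T1 T2 : ℝ}
    (hZ : ∀ z, (z ∈ Z ∧ T1 < z.im ∧ z.im ≤ T2) ↔ z ∈ zset F T1 T2) :
    3 * (NN F T1 T2 : ℝ) - 2 * (Nd F T1 T2 : ℝ) + (No F T1 T2 : ℝ) =
      ∑ z ∈ Z.filter (fun z => T1 < z.im ∧ z.im ≤ T2), (3 * (mult F z : ℝ) - 2 +
        if z.re ≠ 1 / 2 then 1 else 0) := by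
  rw [Nd_filter hZ, Finset.sum_add_distrib]
  congr 1
  unfold No
  have : {s : ℂ | s ∈ zset F T1 T2 ∧ s.re ≠ 1 / 2} =
      (((Z.filter (fun z => T1 < z.im ∧ z.im ≤ T2)).filter
        (fun s => s.re ≠ 1 / 2) : Finset ℂ) : Set ℂ) := by
    ext s
    rw [Finset.mem_coe, Finset.mem_filter, Finset.mem_filter, Set.mem_ofPred_eq, ← hZ s]
  rw [this, Set.ncard_coe_finset, Finset.card_filter]
  push_cast
  rfl

section

variable {J : Type} {ι : J → Type} {S : (j : J) → Finset (ι j)} {F : (j : J) → ι j → ℂ → ℂ}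
  {a : (j : J) → ι j → ℕ → ℂ} {Q : (j : J) → ι j → ℝ} {X : J → ℝ} {q Yc : J → ℕ}
  {c : ℕ → ℂ} {d A l₂ D D' g cf θ : ℝ}

open Classical in
/-- **the theorem for families** -/
theorem win_off (hc : W388.SelE c) (h : FD S F a Q X q Yc c d A l₂ D D' g cf θ) {l : ℝ}
    (hl : 1 / 2 ≤ l) (hl2 : l < l₂) (hl21 : l₂ ≤ 1) (hgl : g ≤ l) (hD : 0 < D) {γ : ℝ} (h0 : 0 < γ) (hπ : γ < Real.pi) {κ : ℝ}
    (hκ : Rw γ 0 / l + 2 * l * D * (∫ α in (0 : ℝ)..1, α * Rw γ α) < κ) {δ : ℝ} (hδ : 0 < δ) :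
    ∃ H1 η X0 : ℝ, 1 ≤ H1 ∧ 0 < η ∧ 1 ≤ X0 ∧ ∀ j, X0 ≤ X j → ∀ T1 T2 : ℝ, |T1| ≤ (X j) ^ η →
      H1 ≤ (T2 - T1) * Real.log (X j) → T2 - T1 ≤ (X j) ^ η →
      (∀ i ∈ S j, (zset (F j i) T1 T2).Finite) ∧
      ∑ i ∈ S j, (2 * (NN (F j i) T1 T2 : ℝ) - (Ns (F j i) T1 T2 : ℝ)) ≤
        κ * ∑ i ∈ S j, (NN (F j i) T1 T2 : ℝ) ∧
      ∑ i ∈ S j, (3 * (NN (F j i) T1 T2 : ℝ) - 2 * (Nd (F j i) T1 T2 : ℝ) +
        (No (F j i) T1 T2 : ℝ)) ≤ κ * ∑ i ∈ S j, (NN (F j i) T1 T2 : ℝ) ∧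
      ∑ i ∈ S j, |(NN (F j i) T1 T2 : ℝ) - (T2 - T1) * Real.log (X j) / (2 * Real.pi)| ≤
        δ * ((T2 - T1) * Real.log (X j) / (2 * Real.pi)) * (S j).card := by
  obtain ⟨ε, hε⟩ : ∃ ε : ℝ, ε =
    min (δ / 2) (κ - (Rw γ 0 / l + 2 * l * D * (∫ α in (0 : ℝ)..1, α * Rw γ α))) := ⟨_, rfl⟩
  have hε0 : 0 < ε := by
    rw [hε]
    exact lt_min (by linarith) (by linarith)
  have hεδ : 2 * ε ≤ δ := by
    have h1 : ε ≤ δ / 2 := by rw [hε]; exact min_le_left _ _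
    linarith
  have hεκ : ε ≤ κ - (Rw γ 0 / l + 2 * l * D * (∫ α in (0 : ℝ)..1, α * Rw γ α)) := by
    rw [hε]; exact min_le_right _ _
  obtain ⟨H1, η, X0, hH1, hη, hX0, hsm⟩ := small_win hc h hl hl2 hl21 hgl hD h0 hπ hε0
  refine ⟨H1, η, X0, hH1, hη, hX0, fun j hj => ?_⟩
  obtain ⟨hlog, Z, hZ, hsm⟩ := hsm j hj
  intro T1 T2 hT1 hH hT2
  obtain ⟨Y, hY⟩ : ∃ Y : ℝ, Y = (X j) ^ η := ⟨_, rfl⟩
  rw [← hY] at hZ hsm hT1 hT2
  have hY0 : 0 ≤ Y := (abs_nonneg _).trans hT1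
  have hR : 0 < Real.log (X j) := by linarith
  have hTT : T1 ≤ T2 := by
    by_contra hcon
    push Not at hcon
    have h1 := mul_neg_of_neg_of_pos (by linarith only [hcon] : T2 - T1 < 0) hR
    linarith only [h1, hH, hH1]
  have hA1 := abs_le.mp hT1
  have hT1' : |T1| ≤ 3 * Y := by linarith
  have hT2' : |T2| ≤ 3 * Y := by
    rw [abs_le]
    constructor <;> linarith
  have hiff : ∀ i ∈ S j, ∀ z, (z ∈ Z i ∧ T1 < z.im ∧ z.im ≤ T2) ↔ z ∈ zset (F j i) T1 T2 := by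
    intro i hi z
    constructor
    · rintro ⟨z1, z2, z3⟩
      obtain ⟨y1, y2, -, -, y5⟩ := (hZ i hi z).1 z1
      exact ⟨y1, y2, z2, z3, y5⟩
    · rintro ⟨y1, y2, y3, y4, y5⟩
      refine ⟨(hZ i hi z).2 ⟨y1, y2, by linarith, by linarith, y5⟩, y3, y4⟩
  have hm : ∀ i ∈ S j, ∀ z ∈ Z i, 1 ≤ mult (F j i) z := by
    intro i hi z hz
    obtain ⟨-, -, -, -, y5⟩ := (hZ i hi z).1 hz
    obtain ⟨g1, g2, g3⟩ := h.hG j i hi
    exact Pool.Agent.T9h27.D.ord_pos g3.diff (g3.nzr 2 (by norm_num)) y5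
  have main : ∀ w : ι j → ℂ → ℝ, (∀ i ∈ S j, ∀ z ∈ Z i,
        w i z ≤ 4 * (mult (F j i) z : ℝ) - H385.PerChi.kk (F j i) z ∧
          w i z ≤ 3 * (mult (F j i) z : ℝ)) →
      ∑ i ∈ S j, ∑ z ∈ (Z i).filter (fun z => T1 < z.im ∧ z.im ≤ T2), w i z ≤
        κ * ∑ i ∈ S j, (NN (F j i) T1 T2 : ℝ) := by
    intro w hw
    have h1 := all_win (G := fun a b => ∑ i ∈ S j, ∑ z ∈ (Z i).filter
        (fun z => a < z.im ∧ z.im ≤ b), (w i z - κ * (mult (F j i) z : ℝ)))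
      (R := Real.log (X j)) (H1 := H1) (T := 3 * Y) (V := 0) hR (by linarith) (by
      intro a b c hab hbc
      rw [← Finset.sum_add_distrib]
      exact le_of_eq (Finset.sum_congr rfl fun i _ => split_win (Z i) _ hab hbc)) (by
      intro a b ha hb h3 h4
      have h5 := (hsm a b ha hb h3 h4 w hw).1
      have h6 : 0 ≤ ∑ i ∈ S j, ∑ z ∈ (Z i).filter (fun z => a < z.im ∧ z.im ≤ b),
          (mult (F j i) z : ℝ) := Finset.sum_nonneg fun i _ => Finset.sum_nonneg fun z _ =>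
            Nat.cast_nonneg _
      have h7 := mul_le_mul_of_nonneg_right hεκ h6
      simp only [Finset.sum_sub_distrib, ← Finset.mul_sum]
      linarith) hT1' hT2' hH
    simp only [Finset.sum_sub_distrib, ← Finset.mul_sum] at h1
    have h2 : ∑ i ∈ S j, (NN (F j i) T1 T2 : ℝ) = ∑ i ∈ S j,
        ∑ z ∈ (Z i).filter (fun z => T1 < z.im ∧ z.im ≤ T2), (mult (F j i) z : ℝ) :=
      Finset.sum_congr rfl fun i hi => NN_filter (hiff i hi)
    rw [h2]
    linarith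
  refine ⟨fun i hi => ?_, ?_, ?_, ?_⟩
  · rw [zset_filter (hiff i hi)]
    exact Finset.finite_toSet _
  · refine le_trans (le_of_eq ?_) (main (fun i z => 2 * (mult (F j i) z : ℝ) -
        if (z.re = 1 / 2 ∧ mult (F j i) z = 1) then 1 else 0)
      (fun i hi z hz => w1_ok (hm i hi z hz)))
    exact Finset.sum_congr rfl fun i hi => Ns_filter (hiff i hi)
  · refine le_trans (le_of_eq ?_) (main (fun i z => 3 * (mult (F j i) z : ℝ) - 2 +
      if z.re ≠ 1 / 2 then 1 else 0) (fun i hi z hz => w3_ok (hm i hi z hz)))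
    exact Finset.sum_congr rfl fun i hi => No_filter (hiff i hi)
  · have h1 := all_win (G := fun a b => ∑ i ∈ S j, |∑ z ∈ (Z i).filter
        (fun z => a < z.im ∧ z.im ≤ b), (mult (F j i) z : ℝ) -
          (b - a) * Real.log (X j) / (2 * Real.pi)|)
      (R := Real.log (X j)) (H1 := H1) (T := 3 * Y)
      (V := δ * (Real.log (X j) / (2 * Real.pi)) * (S j).card) hR (by linarith) (by
      intro a b c hab hbc
      rw [← Finset.sum_add_distrib]
      refine Finset.sum_le_sum fun i _ => ?_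
      rw [split_win (Z i) _ hab hbc]
      refine le_trans (le_of_eq ?_) (abs_add_le _ _)
      congr 1
      ring) (by
      intro a b ha hb h3 h4
      have h5 := (hsm a b ha hb h3 h4 (fun i z => 3 * (mult (F j i) z : ℝ) - 2)
        (fun i hi z hz => w2_ok (hm i hi z hz))).2
      have h6 : 0 ≤ ((b - a) * Real.log (X j) / (2 * Real.pi)) * (S j).card := by
        have : 0 ≤ (b - a) * Real.log (X j) := by linarith
        positivity
      have h7 := mul_le_mul_of_nonneg_right hεδ h6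
      have e1 : δ * (Real.log (X j) / (2 * Real.pi)) * (S j).card * (b - a) =
        δ * (((b - a) * Real.log (X j) / (2 * Real.pi)) * (S j).card) := by ring
      rw [e1]
      linarith) hT1' hT2' hH
    have e2 : δ * (Real.log (X j) / (2 * Real.pi)) * (S j).card * (T2 - T1) =
      δ * ((T2 - T1) * Real.log (X j) / (2 * Real.pi)) * (S j).card := by ring
    rw [← e2]
    refine le_trans (le_of_eq (Finset.sum_congr rfl fun i hi => ?_)) h1
    rw [NN_filter (hiff i hi)]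

end

end Pool.Agent.T9h27.R
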