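import Pool.Agent.T9h27.P.Cnt
import Pool.Agent.T9h27.R.Off

/-!
# The zeros of one of two functions which are not zeros of the other one (helper27)
-/

set_option autoImplicit false

open Complex Filter Topology

namespace Pool.Agent.T9h27.R

open H370 (zset NN Ns Nd mult)
open Pool.Agent.T9h27.P

theorem only_ge {f g : ℂ → ℂ} (hg : Differentiable ℂ g) (hg0 : ∃ s, g s ≠ 0) {T1 T2 : ℝ}
    (hfin : (zset (fun s => f s * g s) T1 T2).Finite) :
    (Nd (fun s => f s * g s) T1 T2 : ℝ) ≤ ((zset f T1 T2 \ zset g T1 T2).ncard : ℝ) +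
      (NN g T1 T2 : ℝ) := by
  classical
  have hz : zset (fun s => f s * g s) T1 T2 = zset f T1 T2 ∪ zset g T1 T2 := by
    ext s
    simp only [zset, Set.mem_setOf_eq, Set.mem_union, mul_eq_zero]
    tauto
  have hgz : (zset g T1 T2).Finite := hfin.subset (by rw [hz]; exact Set.subset_union_right)
  have h1 : Nd (fun s => f s * g s) T1 T2 ≤ (zset f T1 T2 \ zset g T1 T2).ncard +
      (zset g T1 T2).ncard := by
    unfold Nd
    rw [hz]
    have e : zset f T1 T2 ∪ zset g T1 T2 = (zset f T1 T2 \ zset g T1 T2) ∪ zset g T1 T2 := by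
      rw [Set.diff_union_self]
    rw [e]
    exact Set.ncard_union_le _ _
  have h2 : (zset g T1 T2).ncard ≤ NN g T1 T2 := by
    unfold NN
    rw [finsum_mem_eq_finite_toFinset_sum _ hgz, Set.ncard_eq_toFinset_card _ hgz,
      Finset.card_eq_sum_ones]
    refine Finset.sum_le_sum fun s hs => ?_
    rw [Set.Finite.mem_toFinset] at hs
    have h3 : mult g s ≠ 0 := by
      rw [Ne, mult_pos hg hg0]
      intro h
      exact h hs.2.2.2.2
    omega
  have h3 : Nd (fun s => f s * g s) T1 T2 ≤ (zset f T1 T2 \ zset g T1 T2).ncard +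
      NN g T1 T2 := by omega
  exact_mod_cast h3

theorem own_ge {f g : ℂ → ℂ} (hf : Differentiable ℂ f) (hg : Differentiable ℂ g)
    (hf0 : ∃ s, f s ≠ 0) (hg0 : ∃ s, g s ≠ 0) {T1 T2 : ℝ}
    (hfin : (zset (fun s => f s * g s) T1 T2).Finite) :
    (Nd (fun s => f s * g s) T1 T2 : ℝ) ≤ ((own f g T1 T2).ncard : ℝ) + (NN g T1 T2 : ℝ) +
      1 / 2 * ((NN f T1 T2 : ℝ) - (Ns f T1 T2 : ℝ)) +
      1 / 2 * (No (fun s => f s * g s) T1 T2 : ℝ) := by
  classical
  have hz : zset (fun s => f s * g s) T1 T2 = zset f T1 T2 ∪ zset g T1 T2 := by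
    ext s
    simp only [zset, Set.mem_setOf_eq, Set.mem_union, mul_eq_zero]
    tauto
  have hfz : (zset f T1 T2).Finite := hfin.subset (by rw [hz]; exact Set.subset_union_left)
  obtain ⟨A, hA⟩ : ∃ A : Finset ℂ, A = hfz.toFinset := ⟨_, rfl⟩
  have hAm : ∀ s, s ∈ A ↔ s ∈ zset f T1 T2 := fun s => by rw [hA, Set.Finite.mem_toFinset]
  obtain ⟨S, hS⟩ : ∃ S : Finset ℂ, S = A.filter (fun s => s.re = 1 / 2 ∧ mult f s = 1) := ⟨_, rfl⟩
  have hSA : S ⊆ A := by rw [hS]; exact Finset.filter_subset _ _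
  have hNs : Ns f T1 T2 = S.card := by
    unfold Ns
    have : {s : ℂ | s ∈ zset f T1 T2 ∧ s.re = 1 / 2 ∧ mult f s = 1} = (S : Set ℂ) := by
      ext s
      rw [Finset.mem_coe, hS, Finset.mem_filter, hAm]
      rfl
    rw [this, Set.ncard_coe_finset]
  have hNN : (NN f T1 T2 : ℝ) = (S.card : ℝ) + ∑ s ∈ A \ S, (mult f s : ℝ) := by
    unfold NN
    rw [finsum_mem_eq_finite_toFinset_sum _ hfz, ← hA]
    push_cast
    rw [← Finset.sum_sdiff hSA, add_comm]
    congr 1
    have : ∀ s ∈ S, (mult f s : ℝ) = 1 := by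
      intro s hs
      rw [hS, Finset.mem_filter] at hs
      rw [hs.2.2]
      norm_num
    rw [Finset.sum_congr rfl this, Finset.sum_const, nsmul_eq_mul, mul_one]
  have hoff : (((A \ S).filter (fun s => s.re ≠ 1 / 2)).card : ℝ) ≤
      (No (fun s => f s * g s) T1 T2 : ℝ) := by
    unfold No
    have h1 : ((A \ S).filter (fun s => s.re ≠ 1 / 2)).card ≤
        {s : ℂ | s ∈ zset (fun s => f s * g s) T1 T2 ∧ s.re ≠ 1 / 2}.ncard := by
      rw [← Set.ncard_coe_finset]
      refine Set.ncard_le_ncard ?_ (hfin.subset fun s hs => hs.1)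
      intro s hs
      rw [Finset.mem_coe, Finset.mem_filter, Finset.mem_sdiff, hAm] at hs
      refine ⟨?_, hs.2⟩
      rw [hz]
      exact Or.inl hs.1.1
    exact_mod_cast h1
  have hsd : ((A \ S).card : ℝ) ≤ 1 / 2 * ∑ s ∈ A \ S, (mult f s : ℝ) +
      1 / 2 * (((A \ S).filter (fun s => s.re ≠ 1 / 2)).card : ℝ) := by
    rw [Finset.card_filter, Finset.card_eq_sum_ones]
    push_cast
    rw [← mul_add, ← Finset.sum_add_distrib, Finset.mul_sum]
    refine Finset.sum_le_sum fun s hs => ?_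
    rw [Finset.mem_sdiff] at hs
    have hm : mult f s ≠ 0 := by
      rw [Ne, mult_pos hf hf0]
      intro h
      exact h ((hAm s).mp hs.1).2.2.2.2
    by_cases h1 : s.re = 1 / 2
    · have h2 : ¬ (s.re ≠ 1 / 2) := fun h => h h1
      have h3 : mult f s ≠ 1 := by
        intro h
        apply hs.2
        rw [hS, Finset.mem_filter]
        exact ⟨hs.1, h1, h⟩
      have h4 : 2 ≤ mult f s := by omega
      have h5 : (2 : ℝ) ≤ (mult f s : ℝ) := by exact_mod_cast h4
      rw [if_neg h2]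
      linarith
    · have h4 : 1 ≤ mult f s := by omega
      have h5 : (1 : ℝ) ≤ (mult f s : ℝ) := by exact_mod_cast h4
      rw [if_pos h1]
      linarith
  have hof : (own f g T1 T2).Finite := hfz.subset fun s hs => hs.1
  have hsub : ((zset f T1 T2 \ zset g T1 T2).ncard : ℝ) ≤ ((own f g T1 T2).ncard : ℝ) +
      ((A \ S).card : ℝ) := by
    have h1 : (zset f T1 T2 \ zset g T1 T2).ncard ≤ (own f g T1 T2 ∪ ((A \ S : Finset ℂ) : Set ℂ)).ncard := by
      refine Set.ncard_le_ncard ?_ (hof.union (Finset.finite_toSet _))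
      rintro s ⟨h1, h2⟩
      by_cases h3 : s ∈ S
      · left
        rw [hS, Finset.mem_filter] at h3
        refine ⟨h1, h3.2.1, h3.2.2, fun h => h2 ?_⟩
        exact ⟨h1.1, h1.2.1, h1.2.2.1, h1.2.2.2.1, h⟩
      · right
        rw [Finset.mem_coe, Finset.mem_sdiff, hAm]
        exact ⟨h1, h3⟩
    have h2 := h1.trans (Set.ncard_union_le _ _)
    rw [Set.ncard_coe_finset] at h2
    exact_mod_cast h2
  have h1 := only_ge (f := f) hg hg0 hfin
  rw [hNN, hNs]
  linarith

end Pool.Agent.T9h27.R
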