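import Pool.Agent.T9h27.R.Pair
import Pool.Agent.T9h27.R.Cnt

/-!
# The zeros of each of the two functions: the theorem (helper27)
-/

set_option autoImplicit false

open Complex Filter Topology MeasureTheory
open scoped ComplexConjugate

namespace Pool.Agent.T9h27.R

open Pool.Agent.T9h27.Y
open Pool.Agent.T9h27.P
open H385 (primFamM primSetM mem_primSetM primFamM_eq primFamM_mono primFamM_nonneg primFamM_lin IX)
open H370 (zset NN Ns Nd mult)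

lemma fam_cop {M M' : ℕ} (h : ∀ q, Nat.Coprime q M ↔ Nat.Coprime q M') (X Y : ℕ)
    (f : (q : ℕ) → DirichletCharacter ℂ q → ℝ) : primFamM M X Y f = primFamM M' X Y f := by
  unfold primFamM
  congr 1
  exact Finset.filter_congr fun q _ => h q

lemma fam_add (M X Y : ℕ) (f g : (q : ℕ) → DirichletCharacter ℂ q → ℝ) :
    primFamM M X Y (fun q χ => f q χ + g q χ) = primFamM M X Y f + primFamM M X Y g := by
  rw [primFamM_eq, primFamM_eq, primFamM_eq, ← Finset.sum_add_distrib]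
  exact Finset.sum_congr rfl fun p _ => by ring

lemma fam_sub (M X Y : ℕ) (f g : (q : ℕ) → DirichletCharacter ℂ q → ℝ) :
    primFamM M X Y (fun q χ => f q χ - g q χ) = primFamM M X Y f - primFamM M X Y g := by
  rw [primFamM_eq, primFamM_eq, primFamM_eq, ← Finset.sum_sub_distrib]
  exact Finset.sum_congr rfl fun p _ => by ring

/-- **one function**, halved -/
theorem one_fam {m : ℕ} [NeZero m] {ψ : DirichletCharacter ℂ m} (hψ : ψ.IsPrimitive) {k : ℕ}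
    (hk : k ≠ 0) {M : ℕ} (hM : ∀ q, Nat.Coprime q (m * m * k) ↔ Nat.Coprime q M) :
    ∃ κ : ℝ, 2 ≤ κ ∧
      (∀ δ : ℝ, 0 < δ → ∃ B η X₀ : ℝ, 0 < B ∧ 0 < η ∧ 1 ≤ X₀ ∧ ∀ X Y : ℕ, X₀ ≤ (X : ℝ) →
        κ * (X : ℝ) ≤ (Y : ℝ) → ∀ t H : ℝ, |t| ≤ (X : ℝ) ^ η → B ≤ H * Real.log X →
        H ≤ (X : ℝ) ^ η →
        primFamM M X Y (fun q χ => |(NN (Lf (tm χ ψ)) t (t + H) : ℝ) -
            H / (2 * Real.pi) * Real.log q|) ≤
          δ * primFamM M X Y (fun q _ => H / (2 * Real.pi) * Real.log q) ∧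
        0.8883 * primFamM M X Y (fun q χ => (NN (Lf (tm χ ψ)) t (t + H) : ℝ)) ≤
          primFamM M X Y (fun q χ => (Ns (Lf (tm χ ψ)) t (t + H) : ℝ))) := by
  obtain ⟨κ, hκ, h⟩ := one_mul hψ hk
  refine ⟨κ, hκ, fun δ hδ => ?_⟩
  obtain ⟨B, η, X₀, a1, a2, a3, h⟩ := h δ hδ
  refine ⟨B, η, X₀, a1, a2, a3, fun X Y hX hXY t H ht hB hH => ?_⟩
  obtain ⟨b1, b2⟩ := h X Y hX hXY t H ht hB hH
  simp only [fam_cop hM] at b1 b2
  refine ⟨?_, b2⟩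
  have e1 : ∀ (q : ℕ) (χ : DirichletCharacter ℂ q),
      |2 * (NN (Lf (tm χ ψ)) t (t + H) : ℝ) - 2 * H / (2 * Real.pi) * Real.log q| =
      2 * |(NN (Lf (tm χ ψ)) t (t + H) : ℝ) - H / (2 * Real.pi) * Real.log q| := by
    intro q χ
    have h1 : 2 * (NN (Lf (tm χ ψ)) t (t + H) : ℝ) - 2 * H / (2 * Real.pi) * Real.log q =
        2 * ((NN (Lf (tm χ ψ)) t (t + H) : ℝ) - H / (2 * Real.pi) * Real.log q) := by ring
    rw [h1, abs_mul, abs_two]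
  have e2 : ∀ q : ℕ, 2 * H / (2 * Real.pi) * Real.log q =
      2 * (H / (2 * Real.pi) * Real.log q) := by
    intro q
    ring
  simp only [e1] at b1
  simp only [e2] at b1
  have f1 := primFamM_smul M X Y 2 (fun q χ => |(NN (Lf (tm χ ψ)) t (t + H) : ℝ) -
            H / (2 * Real.pi) * Real.log q|)
  have f2 := primFamM_smul M X Y 2 (fun q _ => H / (2 * Real.pi) * Real.log q)
  rw [f1, f2] at b1
  linarith

section

variable {m₁ m₂ : ℕ} [NeZero m₁] [NeZero m₂]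

/-- **each of the two functions** -/
theorem both {ψ₁ : DirichletCharacter ℂ m₁} {ψ₂ : DirichletCharacter ℂ m₂}
    (h₁ : ψ₁.IsPrimitive) (h₂ : ψ₂.IsPrimitive) (hne : tm ψ₁ ψ₂⁻¹ ≠ 1) :
    ∃ κ : ℝ, 2 ≤ κ ∧
      (∀ X Y : ℕ, 1 ≤ X → κ * X ≤ Y → 1 ≤ primFamM (m₁ * m₂) X Y (fun _ _ => 1)) ∧
      (∀ δ : ℝ, 0 < δ → ∃ B η X₀ : ℝ, 0 < B ∧ 0 < η ∧ 1 ≤ X₀ ∧ ∀ X Y : ℕ, X₀ ≤ (X : ℝ) →
        κ * (X : ℝ) ≤ (Y : ℝ) → ∀ t H : ℝ, |t| ≤ (X : ℝ) ^ η → B ≤ H * Real.log X →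
        H ≤ (X : ℝ) ^ η →
        (∀ (q : ℕ) (χ : DirichletCharacter ℂ q), X < q → Nat.Coprime q (m₁ * m₂) →
          χ.IsPrimitive → (zset (FF ψ₁ ψ₂ q χ) t (t + H)).Finite) ∧
        (primFamM (m₁ * m₂) X Y (fun q χ => |(NN (Lf (tm χ ψ₁)) t (t + H) : ℝ) -
            H / (2 * Real.pi) * Real.log q|) ≤
          δ * primFamM (m₁ * m₂) X Y (fun q _ => H / (2 * Real.pi) * Real.log q) ∧
        primFamM (m₁ * m₂) X Y (fun q χ => |(NN (Lf (tm χ ψ₂)) t (t + H) : ℝ) -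
            H / (2 * Real.pi) * Real.log q|) ≤
          δ * primFamM (m₁ * m₂) X Y (fun q _ => H / (2 * Real.pi) * Real.log q)) ∧
        0.3579 * primFamM (m₁ * m₂) X Y (fun q χ => (NN (FF ψ₁ ψ₂ q χ) t (t + H) : ℝ)) ≤
          primFamM (m₁ * m₂) X Y (fun q χ => (Ns (FF ψ₁ ψ₂ q χ) t (t + H) : ℝ)) ∧
        0.67895 * primFamM (m₁ * m₂) X Y (fun q χ => (NN (FF ψ₁ ψ₂ q χ) t (t + H) : ℝ)) ≤
          primFamM (m₁ * m₂) X Y (fun q χ => (Nd (FF ψ₁ ψ₂ q χ) t (t + H) : ℝ)) ∧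
        (0.30204 * primFamM (m₁ * m₂) X Y (fun q χ => (NN (Lf (tm χ ψ₁)) t (t + H) : ℝ)) ≤
          primFamM (m₁ * m₂) X Y (fun q χ =>
            ((own (Lf (tm χ ψ₁)) (Lf (tm χ ψ₂)) t (t + H)).ncard : ℝ)) ∧
        0.30204 * primFamM (m₁ * m₂) X Y (fun q χ => (NN (Lf (tm χ ψ₂)) t (t + H) : ℝ)) ≤
          primFamM (m₁ * m₂) X Y (fun q χ =>
            ((own (Lf (tm χ ψ₂)) (Lf (tm χ ψ₁)) t (t + H)).ncard : ℝ))) ∧
        0.3578 * primFamM (m₁ * m₂) X Y (fun q χ => (NN (Lf (tm χ ψ₁)) t (t + H) : ℝ)) ≤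
          primFamM (m₁ * m₂) X Y (fun q χ =>
            ((zset (Lf (tm χ ψ₁)) t (t + H) \ zset (Lf (tm χ ψ₂)) t (t + H)).ncard : ℝ)) ∧
        0.3578 * primFamM (m₁ * m₂) X Y (fun q χ => (NN (Lf (tm χ ψ₂)) t (t + H) : ℝ)) ≤
          primFamM (m₁ * m₂) X Y (fun q χ =>
            ((zset (Lf (tm χ ψ₂)) t (t + H) \ zset (Lf (tm χ ψ₁)) t (t + H)).ncard : ℝ))) := by
  have hpi := Real.pi_pos
  obtain ⟨κ₀, c0, hms, A0⟩ := pair_off h₁ h₂ hne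
  obtain ⟨κ₁, c1, A1⟩ := one_fam h₁ (NeZero.ne m₂) (M := m₁ * m₂) (fun q => by
    simp only [Nat.coprime_mul_iff_right, and_self])
  obtain ⟨κ₂, c2, A2⟩ := one_fam h₂ (NeZero.ne m₁) (M := m₁ * m₂) (fun q => by
    simp only [Nat.coprime_mul_iff_right, and_self]
    exact and_comm)
  refine ⟨max κ₀ (max κ₁ κ₂), c0.trans (le_max_left _ _), fun X Y hX hXY => hms X Y hX
    (le_trans (mul_le_mul_of_nonneg_right (le_max_left _ _) (Nat.cast_nonneg _)) hXY),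
    fun δ hδ => ?_⟩
  obtain ⟨δ', hδ'⟩ : ∃ δ' : ℝ, δ' = min δ (1 / 1000000) := ⟨_, rfl⟩
  have d0 : 0 < δ' := by rw [hδ']; exact lt_min hδ (by norm_num)
  have d1 : δ' ≤ δ := by rw [hδ']; exact min_le_left _ _
  have d2 : δ' ≤ 1 / 1000000 := by rw [hδ']; exact min_le_right _ _
  obtain ⟨B₀, η₀, X₀, p0, q0, r0, A0⟩ := A0 δ' d0
  obtain ⟨B₁, η₁, X₁, p1, q1, r1, A1⟩ := A1 δ' d0
  obtain ⟨B₂, η₂, X₂, p2, q2, r2, A2⟩ := A2 δ' d0
  refine ⟨max B₀ (max B₁ B₂), min η₀ (min η₁ η₂), max X₀ (max X₁ X₂),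
    p0.trans_le (le_max_left _ _), lt_min q0 (lt_min q1 q2), r0.trans (le_max_left _ _),
    fun X Y hX hXY t H ht hB hH => ?_⟩
  have hX0 : X₀ ≤ (X : ℝ) := (le_max_left _ _).trans hX
  have hX1 : X₁ ≤ (X : ℝ) := ((le_max_left _ _).trans (le_max_right _ _)).trans hX
  have hX2 : X₂ ≤ (X : ℝ) := ((le_max_right _ _).trans (le_max_right _ _)).trans hX
  have hXr : (1 : ℝ) ≤ X := r0.trans hX0
  have hXn : 1 ≤ X := by exact_mod_cast hXr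
  have k0 : κ₀ * (X : ℝ) ≤ Y := le_trans (mul_le_mul_of_nonneg_right (le_max_left _ _)
    (Nat.cast_nonneg _)) hXY
  have k1 : κ₁ * (X : ℝ) ≤ Y := le_trans (mul_le_mul_of_nonneg_right
    ((le_max_left _ _).trans (le_max_right _ _)) (Nat.cast_nonneg _)) hXY
  have k2 : κ₂ * (X : ℝ) ≤ Y := le_trans (mul_le_mul_of_nonneg_right
    ((le_max_right _ _).trans (le_max_right _ _)) (Nat.cast_nonneg _)) hXY
  have n0 : (X : ℝ) ^ min η₀ (min η₁ η₂) ≤ (X : ℝ) ^ η₀ :=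
    Real.rpow_le_rpow_of_exponent_le hXr (min_le_left _ _)
  have n1 : (X : ℝ) ^ min η₀ (min η₁ η₂) ≤ (X : ℝ) ^ η₁ :=
    Real.rpow_le_rpow_of_exponent_le hXr ((min_le_right _ _).trans (min_le_left _ _))
  have n2 : (X : ℝ) ^ min η₀ (min η₁ η₂) ≤ (X : ℝ) ^ η₂ :=
    Real.rpow_le_rpow_of_exponent_le hXr ((min_le_right _ _).trans (min_le_right _ _))
  obtain ⟨a1, a3, a4⟩ := A0 X Y hX0 k0 t H (ht.trans n0) ((le_max_left _ _).trans hB)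
    (hH.trans n0)
  obtain ⟨b1, b2⟩ := A1 X Y hX1 k1 t H (ht.trans n1)
    (((le_max_left _ _).trans (le_max_right _ _)).trans hB) (hH.trans n1)
  obtain ⟨e1, e2⟩ := A2 X Y hX2 k2 t H (ht.trans n2)
    (((le_max_right _ _).trans (le_max_right _ _)).trans hB) (hH.trans n2)
  have hmem : ∀ (q : ℕ) (χ : DirichletCharacter ℂ q), 2 ≤ q → Nat.Coprime q (m₁ * m₂) →
      χ.IsPrimitive → (Differentiable ℂ (Lf (tm χ ψ₁)) ∧ ∃ s, Lf (tm χ ψ₁) s ≠ 0) ∧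
        Differentiable ℂ (Lf (tm χ ψ₂)) ∧ ∃ s, Lf (tm χ ψ₂) s ≠ 0 := by
    intro q χ h2 hq hχ
    have : NeZero q := ⟨by omega⟩
    have : NeZero (q * m₁) := ⟨mul_ne_zero (NeZero.ne q) (NeZero.ne m₁)⟩
    have : NeZero (q * m₂) := ⟨mul_ne_zero (NeZero.ne q) (NeZero.ne m₂)⟩
    have n1 : tm χ ψ₁ ≠ 1 := tm_ne_one h2 hχ h₁
      (Nat.Coprime.coprime_dvd_right (dvd_mul_right _ _) hq)
    have n2 : tm χ ψ₂ ≠ 1 := tm_ne_one h2 hχ h₂
      (Nat.Coprime.coprime_dvd_right (dvd_mul_left _ _) hq)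
    rw [Lf_eq, Lf_eq]
    exact ⟨⟨DirichletCharacter.differentiable_LFunction n1, 2,
      DirichletCharacter.LFunction_ne_zero_of_one_le_re _ (Or.inl n1) (by norm_num)⟩,
      DirichletCharacter.differentiable_LFunction n2, 2,
      DirichletCharacter.LFunction_ne_zero_of_one_le_re _ (Or.inl n2) (by norm_num)⟩
  -- the sums over the family
  obtain ⟨E, hE⟩ : ∃ E : ℝ, E = primFamM (m₁ * m₂) X Y (fun q _ =>
    H / (2 * Real.pi) * Real.log q) := ⟨_, rfl⟩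
  obtain ⟨N1, hN1⟩ : ∃ N1 : ℝ, N1 = primFamM (m₁ * m₂) X Y (fun q χ =>
    (NN (Lf (tm χ ψ₁)) t (t + H) : ℝ)) := ⟨_, rfl⟩
  obtain ⟨N2, hN2⟩ : ∃ N2 : ℝ, N2 = primFamM (m₁ * m₂) X Y (fun q χ =>
    (NN (Lf (tm χ ψ₂)) t (t + H) : ℝ)) := ⟨_, rfl⟩
  obtain ⟨U, hU⟩ : ∃ U : ℝ, U = primFamM (m₁ * m₂) X Y (fun q χ =>
    (Nd (FF ψ₁ ψ₂ q χ) t (t + H) : ℝ)) := ⟨_, rfl⟩
  obtain ⟨O, hO⟩ : ∃ O : ℝ, O = primFamM (m₁ * m₂) X Y (fun q χ =>
    (No (FF ψ₁ ψ₂ q χ) t (t + H) : ℝ)) := ⟨_, rfl⟩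
  have hE0 : 0 ≤ E := by
    have hH0 : 0 ≤ H := by
      have h1 := Real.log_nonneg hXr
      by_contra hcon
      push Not at hcon
      have h2 := mul_nonpos_of_nonpos_of_nonneg hcon.le h1
      have h3 : 0 < max B₀ (max B₁ B₂) := p0.trans_le (le_max_left _ _)
      linarith
    rw [hE]
    exact primFamM_nonneg _ _ _ _ fun q _ => mul_nonneg (by positivity)
      (Real.log_natCast_nonneg q)
  have hO0 : 0 ≤ O := by
    rw [hO]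
    exact primFamM_nonneg _ _ _ _ fun q _ => Nat.cast_nonneg _
  have hdev : ∀ f : (q : ℕ) → DirichletCharacter ℂ q → ℝ,
      primFamM (m₁ * m₂) X Y (fun q χ => |f q χ - H / (2 * Real.pi) * Real.log q|) ≤ δ' * E →
      (1 - δ') * E ≤ primFamM (m₁ * m₂) X Y f ∧ primFamM (m₁ * m₂) X Y f ≤ (1 + δ') * E := by
    intro f hf
    have g1 := primFamM_mono (m₁ * m₂) X Y
      (fun q χ => f q χ - H / (2 * Real.pi) * Real.log q)
      (fun q χ => |f q χ - H / (2 * Real.pi) * Real.log q|)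
      (fun q χ _ _ _ _ => le_abs_self _)
    have g2 := primFamM_mono (m₁ * m₂) X Y
      (fun q χ => H / (2 * Real.pi) * Real.log q - f q χ)
      (fun q χ => |f q χ - H / (2 * Real.pi) * Real.log q|)
      (fun q χ _ _ _ _ => by
        have := neg_le_abs (f q χ - H / (2 * Real.pi) * Real.log q)
        linarith)
    rw [fam_sub, ← hE] at g1 g2
    constructor <;> linarith
  rw [← hE] at b1 e1
  obtain ⟨x1, x2⟩ := hdev _ b1
  obtain ⟨y1, y2⟩ := hdev _ e1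
  rw [← hN1] at x1 x2 b2
  rw [← hN2] at y1 y2 e2
  have hNN : primFamM (m₁ * m₂) X Y (fun q χ => (NN (FF ψ₁ ψ₂ q χ) t (t + H) : ℝ)) =
      N1 + N2 := by
    rw [hN1, hN2, ← fam_add]
    refine le_antisymm ?_ ?_ <;>
    · refine primFamM_mono _ _ _ _ _ fun q χ hXq _ hq hχ => ?_
      obtain ⟨⟨u1, u2⟩, u3, u4⟩ := hmem q χ (by omega) hq hχ
      have := (counts u1 u3 u2 u4 (a1 q χ hXq hq hχ)).2.1
      have e : (NN (FF ψ₁ ψ₂ q χ) t (t + H) : ℝ) = (NN (Lf (tm χ ψ₁)) t (t + H) : ℝ) +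
          (NN (Lf (tm χ ψ₂)) t (t + H) : ℝ) := by exact_mod_cast this
      rw [e]
  have a4' : 0.67895 * (N1 + N2) + 1 / 2 * O ≤ U := by
    rw [fam_add, primFamM_smul, primFamM_smul, hNN, ← hO, ← hU] at a4
    exact a4
  rw [hNN] at a3 ⊢
  -- the own zeros
  have own1 : U ≤ primFamM (m₁ * m₂) X Y (fun q χ =>
            ((own (Lf (tm χ ψ₁)) (Lf (tm χ ψ₂)) t (t + H)).ncard : ℝ)) + N2 +
      1 / 2 * (N1 - primFamM (m₁ * m₂) X Y (fun q χ => (Ns (Lf (tm χ ψ₁)) t (t + H) : ℝ))) +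
      1 / 2 * O := by
    rw [hU, hN2, hN1, hO, ← fam_sub, ← primFamM_smul, ← primFamM_smul, ← fam_add, ← fam_add,
      ← fam_add]
    refine primFamM_mono _ _ _ _ _ fun q χ hXq _ hq hχ => ?_
    obtain ⟨⟨u1, u2⟩, u3, u4⟩ := hmem q χ (by omega) hq hχ
    exact own_ge u1 u3 u2 u4 (a1 q χ hXq hq hχ)
  have hcomm : ∀ (q : ℕ) (χ : DirichletCharacter ℂ q),
      (fun s => Lf (tm χ ψ₂) s * Lf (tm χ ψ₁) s) = FF ψ₁ ψ₂ q χ := by
    intro q χ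
    funext s
    exact mul_comm _ _
  have own2 : U ≤ primFamM (m₁ * m₂) X Y (fun q χ =>
            ((own (Lf (tm χ ψ₂)) (Lf (tm χ ψ₁)) t (t + H)).ncard : ℝ)) + N1 +
      1 / 2 * (N2 - primFamM (m₁ * m₂) X Y (fun q χ => (Ns (Lf (tm χ ψ₂)) t (t + H) : ℝ))) +
      1 / 2 * O := by
    rw [hU, hN2, hN1, hO, ← fam_sub, ← primFamM_smul, ← primFamM_smul, ← fam_add, ← fam_add,
      ← fam_add]
    refine primFamM_mono _ _ _ _ _ fun q χ hXq _ hq hχ => ?_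
    obtain ⟨⟨u1, u2⟩, u3, u4⟩ := hmem q χ (by omega) hq hχ
    have h := own_ge u3 u1 u4 u2 (T1 := t) (T2 := t + H)
      (by rw [hcomm]; exact a1 q χ hXq hq hχ)
    rw [hcomm] at h
    exact h
  have on1 : U ≤ primFamM (m₁ * m₂) X Y (fun q χ =>
            ((zset (Lf (tm χ ψ₁)) t (t + H) \ zset (Lf (tm χ ψ₂)) t (t + H)).ncard : ℝ)) +
            N2 := by
    rw [hU, hN2, ← fam_add]
    refine primFamM_mono _ _ _ _ _ fun q χ hXq _ hq hχ => ?_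
    obtain ⟨⟨u1, u2⟩, u3, u4⟩ := hmem q χ (by omega) hq hχ
    exact only_ge u3 u4 (a1 q χ hXq hq hχ)
  have on2 : U ≤ primFamM (m₁ * m₂) X Y (fun q χ =>
            ((zset (Lf (tm χ ψ₂)) t (t + H) \ zset (Lf (tm χ ψ₁)) t (t + H)).ncard : ℝ)) +
            N1 := by
    rw [hU, hN1, ← fam_add]
    refine primFamM_mono _ _ _ _ _ fun q χ hXq _ hq hχ => ?_
    obtain ⟨⟨u1, u2⟩, u3, u4⟩ := hmem q χ (by omega) hq hχ
    have h := only_ge (f := Lf (tm χ ψ₂)) u1 u2 (T1 := t) (T2 := t + H)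
      (by rw [hcomm]; exact a1 q χ hXq hq hχ)
    rw [hcomm] at h
    exact h
  have z1 : N2 ≤ 1.00001 * N1 := by nlinarith
  have z2 : N1 ≤ 1.00001 * N2 := by nlinarith
  rw [← hU, ← hN1, ← hN2, ← hE]
  refine ⟨a1, ⟨b1.trans ?_, e1.trans ?_⟩, a3, by linarith, ⟨?_, ?_⟩, ?_, ?_⟩
  · exact mul_le_mul_of_nonneg_right d1 hE0
  · exact mul_le_mul_of_nonneg_right d1 hE0
  · linarith
  · linarith
  · linarith
  · linarith

end

end Pool.Agent.T9h27.R
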