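import Pool.Agent.T9h27.Q.One
import Pool.Agent.T9h27.R.Gen

/-!
# The twists of two Dirichlet characters: the zeros of each of the two functions (helper27)
-/

set_option autoImplicit false

open Complex Filter Topology MeasureTheory
open scoped ComplexConjugate

namespace Pool.Agent.T9h27.R

open Pool.Agent.T9h27.Y
open Pool.Agent.T9h27.P
open Pool.Agent.T9h27.Q
open Pool.Agent.T9h27.Z (GoodW NCs consts2)
open Pool.Agent.T9h27.D (NS)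
open Pool.Agent.T9h27.W (TwData GM)
open Pool.Agent.T9h27.A (Nm ns_Nm ch ch_le twc LA_euler)
open H385 (Rw primFamM primSetM mem_primSetM primFamM_eq IX)
open H370 (zset NN Ns Nd mult)

/-- more conductors may be excluded -/
lemma pd_mul {ι : Type} [Fintype ι] {N : ℝ} {M₀ : ℕ} {A₀ : ℝ}
    {g : Nat.Primes → ι → ℂ} {c₀ : ℕ → ℂ} {F : (q : ℕ) → DirichletCharacter ℂ q → ℂ → ℂ}
    (h : PD ι N M₀ A₀ g c₀ F) {k : ℕ} (hk : k ≠ 0) : PD ι N (M₀ * k) A₀ g c₀ F where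
  hN := h.hN
  hM := mul_ne_zero h.hM hk
  hA := h.hA
  g1 := h.g1
  fe := fun q χ h2 hq hχ => h.fe q χ h2 (Nat.Coprime.coprime_dvd_right (dvd_mul_right _ _) hq) hχ
  nz := fun q χ h2 hq hχ => h.nz q χ h2 (Nat.Coprime.coprime_dvd_right (dvd_mul_right _ _) hq) hχ
  up := fun q χ h2 hq hχ => h.up q χ h2 (Nat.Coprime.coprime_dvd_right (dvd_mul_right _ _) hq) hχ
  lo := fun q χ h2 hq hχ => h.lo q χ h2 (Nat.Coprime.coprime_dvd_right (dvd_mul_right _ _) hq) hχ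
  co := fun q χ h2 hq hχ => h.co q χ h2 (Nat.Coprime.coprime_dvd_right (dvd_mul_right _ _) hq) hχ
  ld := fun q χ h2 hq hχ => h.ld q χ h2 (Nat.Coprime.coprime_dvd_right (dvd_mul_right _ _) hq) hχ
  eu := fun q χ h2 hq hχ => h.eu q χ h2 (Nat.Coprime.coprime_dvd_right (dvd_mul_right _ _) hq) hχ

section

variable {m₁ m₂ : ℕ} [NeZero m₁] [NeZero m₂]

/-- **the products, with the zeros off the line** -/
theorem pair_off {ψ₁ : DirichletCharacter ℂ m₁} {ψ₂ : DirichletCharacter ℂ m₂}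
    (h₁ : ψ₁.IsPrimitive) (h₂ : ψ₂.IsPrimitive) (hne : tm ψ₁ ψ₂⁻¹ ≠ 1) :
    ∃ κ : ℝ, 2 ≤ κ ∧
      (∀ X Y : ℕ, 1 ≤ X → κ * X ≤ Y → 1 ≤ primFamM (m₁ * m₂) X Y (fun _ _ => 1)) ∧
      (∀ δ : ℝ, 0 < δ → ∃ B η X₀ : ℝ, 0 < B ∧ 0 < η ∧ 1 ≤ X₀ ∧ ∀ X Y : ℕ, X₀ ≤ (X : ℝ) →
        κ * (X : ℝ) ≤ (Y : ℝ) → ∀ t H : ℝ, |t| ≤ (X : ℝ) ^ η → B ≤ H * Real.log X →
        H ≤ (X : ℝ) ^ η →
        (∀ (q : ℕ) (χ : DirichletCharacter ℂ q), X < q → Nat.Coprime q (m₁ * m₂) →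
          χ.IsPrimitive → (zset (FF ψ₁ ψ₂ q χ) t (t + H)).Finite) ∧
        0.3579 * primFamM (m₁ * m₂) X Y (fun q χ => (NN (FF ψ₁ ψ₂ q χ) t (t + H) : ℝ)) ≤
          primFamM (m₁ * m₂) X Y (fun q χ => (Ns (FF ψ₁ ψ₂ q χ) t (t + H) : ℝ)) ∧
        primFamM (m₁ * m₂) X Y (fun q χ => 0.67895 * (NN (FF ψ₁ ψ₂ q χ) t (t + H) : ℝ) +
            1 / 2 * (No (FF ψ₁ ψ₂ q χ) t (t + H) : ℝ)) ≤
          primFamM (m₁ * m₂) X Y (fun q χ => (Nd (FF ψ₁ ψ₂ q χ) t (t + H) : ℝ))) := by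
  have hPD := pd_pair h₁ h₂
  obtain ⟨A, hD⟩ := twdata_prod hPD
  obtain ⟨A', hA', hgood⟩ := good_prod hPD
  have hcard : Fintype.card (Unit ⊕ Unit) = 2 := by simp
  rw [hcard] at hD hgood
  obtain ⟨γ, l, D, k1, k2, k3, k4, k5, k6⟩ := consts22
  obtain ⟨κ, P, D', hκ, hms, hfd⟩ := fd_tw (ns_Nm (Unit ⊕ Unit)) hD hPD.hM le_rfl (by norm_num)
    hA' (by norm_num : (0 : ℝ) ≤ 2)
    (c₀ := fun n : ℕ => ψ₁ (n : ZMod m₁) + ψ₂ (n : ZMod m₂))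
    (fun n => by
      refine (norm_add_le _ _).trans ?_
      have := ψ₁.norm_le_one (n : ZMod m₁)
      have := ψ₂.norm_le_one (n : ZMod m₂)
      linarith) hgood
    (g := 2 / 5) (cf := 9 / 10) (l₂ := (l + 1) / 2) (D := D) (by linarith)
    (by push_cast; linarith) k5 (by norm_num) (by norm_num) (by linarith) (by norm_num)
    (by push_cast; norm_num)
  obtain ⟨H1, -⟩ := micro_off (F := fun i => FF ψ₁ ψ₂ i.1 i.2)
    (ϖ := 0.3579) (by norm_num) le_rfl (selE_pair hne) (by norm_num) k1 k2 k3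
    (l₂ := (l + 1) / 2) (g := 2 / 5) (by linarith) (by linarith) (by linarith) (by linarith)
    (by linarith) hκ hms (FD.scale (by norm_num : (0 : ℝ) < 2) hfd)
  have e1 : (1 + (0.3579 : ℝ)) / 2 = 0.67895 := by norm_num
  simp only [e1] at H1
  refine ⟨κ, hκ, hms, fun δ hδ => ?_⟩
  obtain ⟨B, η, X₀, a1, a2, a3, H1⟩ := H1 δ hδ
  refine ⟨B, η, X₀, a1, a2, a3, fun X Y hX hXY t H ht hB hH => ?_⟩
  obtain ⟨b1, -, b3, b4⟩ := H1 X Y hX hXY t H ht hB hH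
  exact ⟨b1, b3, b4⟩

end

section

variable {m : ℕ} [NeZero m]

/-- **one function**, with more conductors excluded -/
theorem one_mul {ψ : DirichletCharacter ℂ m} (hψ : ψ.IsPrimitive) {k : ℕ} (hk : k ≠ 0) :
    ∃ κ : ℝ, 2 ≤ κ ∧
      (∀ δ : ℝ, 0 < δ → ∃ B η X₀ : ℝ, 0 < B ∧ 0 < η ∧ 1 ≤ X₀ ∧ ∀ X Y : ℕ, X₀ ≤ (X : ℝ) →
        κ * (X : ℝ) ≤ (Y : ℝ) → ∀ t H : ℝ, |t| ≤ (X : ℝ) ^ η → B ≤ H * Real.log X →
        H ≤ (X : ℝ) ^ η →
        primFamM (m * m * k) X Y (fun q χ => |2 * (NN (Lf (tm χ ψ)) t (t + H) : ℝ) -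
            2 * H / (2 * Real.pi) * Real.log q|) ≤
          δ * primFamM (m * m * k) X Y (fun q _ => 2 * H / (2 * Real.pi) * Real.log q) ∧
        0.8883 * primFamM (m * m * k) X Y (fun q χ => (NN (Lf (tm χ ψ)) t (t + H) : ℝ)) ≤
          primFamM (m * m * k) X Y (fun q χ => (Ns (Lf (tm χ ψ)) t (t + H) : ℝ))) := by
  have hPD := pd_mul (pd_pair hψ hψ) hk
  obtain ⟨A, hD⟩ := twdata_prod hPD
  obtain ⟨A', hA', hgood⟩ := good_prod hPD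
  have hcard : Fintype.card (Unit ⊕ Unit) = 2 := by simp
  rw [hcard] at hD hgood
  obtain ⟨γ, l, D, h1, h2, h3, h4, h5, h6⟩ := consts44
  have hmem : ∀ (q : ℕ) (χ : DirichletCharacter ℂ q), 2 ≤ q → Nat.Coprime q (m * m * k) →
      χ.IsPrimitive → Differentiable ℂ (Lf (tm χ ψ)) ∧ ∃ s, Lf (tm χ ψ) s ≠ 0 := by
    intro q χ h2 hq hχ
    have : NeZero q := ⟨by omega⟩
    have : NeZero (q * m) := ⟨mul_ne_zero (NeZero.ne q) (NeZero.ne m)⟩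
    have n1 : tm χ ψ ≠ 1 := tm_ne_one h2 hχ hψ
      (Nat.Coprime.coprime_dvd_right ((dvd_mul_right m m).trans (dvd_mul_right _ _)) hq)
    rw [Lf_eq]
    exact ⟨DirichletCharacter.differentiable_LFunction n1, 2,
      DirichletCharacter.LFunction_ne_zero_of_one_le_re _ (Or.inl n1) (by norm_num)⟩
  obtain ⟨κ, P, D', hκ, hms, hfd⟩ := fd_tw (ns_Nm (Unit ⊕ Unit)) hD hPD.hM le_rfl (by norm_num)
    hA' (by norm_num : (0 : ℝ) ≤ 2) (c₀ := fun n : ℕ => ψ (n : ZMod m) + ψ (n : ZMod m))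
    (fun n => by
      refine (norm_add_le _ _).trans ?_
      have := ψ.norm_le_one (n : ZMod m)
      linarith) hgood
    (g := 2 / 5) (cf := 9 / 10) (l₂ := (l + 1) / 2) (D := D) (by linarith)
    (by push_cast; linarith) h5 (by norm_num) (by norm_num) (by linarith) (by norm_num)
    (by push_cast; norm_num)
  obtain ⟨H1, -⟩ := micro_sq (F := fun i => FF ψ ψ i.1 i.2) (G := fun i => Lf (tm i.2 ψ))
    (ϖ := 0.8883) (by norm_num) le_rfl (selE_one ψ) (by norm_num) h1 h2 h3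
    (l₂ := (l + 1) / 2) (g := 2 / 5) (by linarith) (by linarith) (by linarith) (by linarith)
    (by norm_num at h6 ⊢; linarith) hκ
    (fun q χ _ _ _ z => by
      change Lf (tm χ ψ) z * Lf (tm χ ψ) z = 0 ↔ _
      rw [mul_self_eq_zero])
    (fun q χ a b c z => by
      obtain ⟨d1, d2⟩ := hmem q χ a b c
      have := mult_mul d1 d1 d2 d2 z
      change mult (fun s => Lf (tm χ ψ) s * Lf (tm χ ψ) s) z = _
      rw [this, two_mul])
    hms (FD.scale (by norm_num : (0 : ℝ) < 4) hfd)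
  simp only [Nat.cast_ofNat] at H1
  refine ⟨κ, hκ, fun δ hδ => ?_⟩
  obtain ⟨B, η, X₀, a1, a2, a3, H1⟩ := H1 δ hδ
  refine ⟨B, η, X₀, a1, a2, a3, fun X Y hX hXY t H ht hB hH => ?_⟩
  obtain ⟨-, b2, b3, -⟩ := H1 X Y hX hXY t H ht hB hH
  exact ⟨b2, b3⟩

end

end Pool.Agent.T9h27.R
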