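import Pool.Agent.T9h27.R.Fin

/-!
# The members of the family with an own zero near a given height (helper27)
-/

set_option autoImplicit false

open Complex Filter Topology MeasureTheory
open scoped ComplexConjugate

namespace Pool.Agent.T9h27.R

open Pool.Agent.T9h27.Y
open Pool.Agent.T9h27.P
open H385 (primFamM primSetM mem_primSetM primFamM_eq primFamM_mono primFamM_nonneg primFamM_lin IX)
open H370 (zset NN Ns Nd mult)

lemma own_mono {f g : ℂ → ℂ} {T T1 T2 : ℝ} (h : T1 ≤ T2) (hn : (own f g T T1).Nonempty) :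
    (own f g T T2).Nonempty := by
  obtain ⟨s, ⟨a1, a2, a3, a4, a5⟩, a6, a7⟩ := hn
  exact ⟨s, ⟨a1, a2, a3, a4.trans h, a5⟩, a6, a7⟩

lemma own_le {f g : ℂ → ℂ} (hf : Differentiable ℂ f) (hf0 : ∃ s, f s ≠ 0) {T1 T2 : ℝ}
    (hfin : (zset f T1 T2).Finite) : (own f g T1 T2).ncard ≤ NN f T1 T2 := by
  classical
  have h1 : (own f g T1 T2).ncard ≤ (zset f T1 T2).ncard :=
    Set.ncard_le_ncard (fun s hs => hs.1) hfin
  refine h1.trans ?_
  unfold NN
  rw [finsum_mem_eq_finite_toFinset_sum _ hfin, Set.ncard_eq_toFinset_card _ hfin,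
    Finset.card_eq_sum_ones]
  refine Finset.sum_le_sum fun s hs => ?_
  rw [Set.Finite.mem_toFinset] at hs
  have h3 : mult f s ≠ 0 := by
    rw [Ne, mult_pos hf hf0]
    intro h
    exact h hs.2.2.2.2
  omega

open Classical in
theorem share {M : ℕ} {κ : ℝ} (hκ : 2 ≤ κ) {f g : (q : ℕ) → DirichletCharacter ℂ q → ℂ → ℂ}
    (h : ∀ δ : ℝ, 0 < δ → ∃ B η X₀ : ℝ, 0 < B ∧ 0 < η ∧ 1 ≤ X₀ ∧ ∀ X Y : ℕ, X₀ ≤ (X : ℝ) →
      κ * (X : ℝ) ≤ (Y : ℝ) → ∀ t H : ℝ, |t| ≤ (X : ℝ) ^ η → B ≤ H * Real.log X →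
      H ≤ (X : ℝ) ^ η →
      (∀ (q : ℕ) (χ : DirichletCharacter ℂ q), X < q → Nat.Coprime q M → χ.IsPrimitive →
        (own (f q χ) (g q χ) t (t + H)).ncard ≤ NN (f q χ) t (t + H)) ∧
      primFamM M X Y (fun q χ => |(NN (f q χ) t (t + H) : ℝ) -
          H / (2 * Real.pi) * Real.log q|) ≤
        δ * primFamM M X Y (fun q _ => H / (2 * Real.pi) * Real.log q) ∧
      0.30204 * primFamM M X Y (fun q χ => (NN (f q χ) t (t + H) : ℝ)) ≤
        primFamM M X Y (fun q χ => ((own (f q χ) (g q χ) t (t + H)).ncard : ℝ))) :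
    ∃ B η X₀ : ℝ, 0 < B ∧ 0 < η ∧ 1 ≤ X₀ ∧ ∀ X Y : ℕ, X₀ ≤ (X : ℝ) →
      κ * (X : ℝ) ≤ (Y : ℝ) → ∀ t H : ℝ, |t| ≤ (X : ℝ) ^ η → B ≤ H * Real.log X →
      0.302 * primFamM M X Y (fun _ _ => 1) ≤
        primFamM M X Y (fun q χ => if (own (f q χ) (g q χ) t (t + H)).Nonempty then 1 else 0) := by
  have hpi := Real.pi_pos
  obtain ⟨δ, hδ⟩ : ∃ δ : ℝ, δ = 1 / 1000000 := ⟨_, rfl⟩
  have hδ0 : 0 < δ := by rw [hδ]; norm_num
  obtain ⟨B, η, X₀, hB, hη, hX₀, h⟩ := h δ hδ0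
  have hlκ : 0 ≤ Real.log κ := Real.log_nonneg (by linarith)
  refine ⟨B, η, max X₀ (max (Real.exp (3 * Real.log κ / δ)) (Real.exp (B + 1))), hB, hη,
    hX₀.trans (le_max_left _ _), fun X Y hX hXY t H ht hBH => ?_⟩
  have k1 : X₀ ≤ (X : ℝ) := (le_max_left _ _).trans hX
  have k2 : Real.exp (3 * Real.log κ / δ) ≤ (X : ℝ) :=
    ((le_max_left _ _).trans (le_max_right _ _)).trans hX
  have k3 : Real.exp (B + 1) ≤ (X : ℝ) :=
    ((le_max_right _ _).trans (le_max_right _ _)).trans hX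
  have hXr : (1 : ℝ) ≤ X := hX₀.trans k1
  have hXn : 1 ≤ X := by exact_mod_cast hXr
  have l1 : 3 * Real.log κ / δ ≤ Real.log X := by
    rw [Real.le_log_iff_exp_le (by linarith)]
    exact k2
  have l2 : B + 1 ≤ Real.log X := by
    rw [Real.le_log_iff_exp_le (by linarith)]
    exact k3
  rw [div_le_iff₀ hδ0] at l1
  have hblock : ∀ X' Y' : ℕ, X ≤ X' → κ * (X' : ℝ) ≤ (Y' : ℝ) → (Y' : ℝ) ≤ κ ^ 3 * (X' : ℝ) →
      primFamM M X' Y' (fun q χ => 0.302 * 1 - 1 *
        (if (own (f q χ) (g q χ) t (t + H)).Nonempty then 1 else 0)) ≤ 0 := by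
    intro X' Y' hXX hXY' hYX'
    have hXr' : (X : ℝ) ≤ X' := by exact_mod_cast hXX
    have hX'1 : (1 : ℝ) ≤ X' := hXr.trans hXr'
    have hlX : Real.log X ≤ Real.log X' := Real.log_le_log (by linarith) hXr'
    have hlX0 : 0 < Real.log (X' : ℝ) := by linarith
    obtain ⟨H', hH'⟩ : ∃ H' : ℝ, H' = B / Real.log X' := ⟨_, rfl⟩
    have hH'0 : 0 < H' := by rw [hH']; positivity
    have hHl : H' * Real.log X' = B := by rw [hH']; field_simp
    have hH0 : 0 < H := by
      by_contra hcon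
      push Not at hcon
      have := mul_nonpos_of_nonpos_of_nonneg hcon (by linarith : (0 : ℝ) ≤ Real.log X)
      linarith
    have hHH : H' ≤ H := by
      rw [hH', div_le_iff₀ hlX0]
      exact hBH.trans (mul_le_mul_of_nonneg_left hlX hH0.le)
    have hXη : (X : ℝ) ^ η ≤ (X' : ℝ) ^ η := Real.rpow_le_rpow (by linarith) hXr' hη.le
    have hXη1 : 1 ≤ (X' : ℝ) ^ η := Real.one_le_rpow hX'1 hη.le
    have hH'1 : H' ≤ 1 := by
      rw [hH', div_le_one hlX0]
      linarith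
    obtain ⟨a1, a2, a3⟩ := h X' Y' (k1.trans hXr') hXY' t H' (ht.trans hXη) hHl.ge
      (hH'1.trans hXη1)
    obtain ⟨m, hm⟩ : ∃ m : ℝ, m = B / (2 * Real.pi) := ⟨_, rfl⟩
    have hm0 : 0 < m := by rw [hm]; positivity
    have hmH : H' / (2 * Real.pi) * Real.log X' = m := by
      rw [hm, ← hHl]
      ring
    -- the members
    have hq : ∀ q : ℕ, X' < q → q ≤ Y' → m ≤ H' / (2 * Real.pi) * Real.log q ∧
        H' / (2 * Real.pi) * Real.log q ≤ (1 + δ) * m := by
      intro q h1 h2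
      have hq1 : (X' : ℝ) ≤ q := by exact_mod_cast h1.le
      have hq2 : (q : ℝ) ≤ Y' := by exact_mod_cast h2
      have hq0 : (0 : ℝ) < q := by linarith
      have hc : 0 ≤ H' / (2 * Real.pi) := by positivity
      have g1 : Real.log (X' : ℝ) ≤ Real.log q := Real.log_le_log (by linarith) hq1
      have g2 : Real.log (q : ℝ) ≤ (1 + δ) * Real.log X' := by
        have h9 : (q : ℝ) ≤ κ ^ 3 * X' := hq2.trans hYX'
        have h10 := Real.log_le_log hq0 h9
        rw [Real.log_mul (by positivity) (by linarith), Real.log_pow] at h10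
        push_cast at h10
        have h11 := mul_le_mul_of_nonneg_right hlX hδ0.le
        linarith
      constructor
      · rw [← hmH]
        exact mul_le_mul_of_nonneg_left g1 hc
      · refine (mul_le_mul_of_nonneg_left g2 hc).trans (le_of_eq ?_)
        rw [← hmH]
        ring
    obtain ⟨W, hW⟩ : ∃ W : ℝ, W = primFamM M X' Y' (fun _ _ => 1) := ⟨_, rfl⟩
    obtain ⟨E, hE⟩ : ∃ E : ℝ, E = primFamM M X' Y' (fun q _ =>
      H' / (2 * Real.pi) * Real.log q) := ⟨_, rfl⟩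
    obtain ⟨G, hG⟩ : ∃ G : ℝ, G = primFamM M X' Y' (fun q χ =>
      if (own (f q χ) (g q χ) t (t + H)).Nonempty then 1 else 0) := ⟨_, rfl⟩
    obtain ⟨D, hD⟩ : ∃ D : ℝ, D = primFamM M X' Y' (fun q χ => |(NN (f q χ) t (t + H') : ℝ) -
          H' / (2 * Real.pi) * Real.log q|) := ⟨_, rfl⟩
    obtain ⟨N, hN⟩ : ∃ N : ℝ, N = primFamM M X' Y' (fun q χ =>
      (NN (f q χ) t (t + H') : ℝ)) := ⟨_, rfl⟩
    have hW0 : 0 ≤ W := by
      rw [hW]
      exact primFamM_nonneg _ _ _ _ fun _ _ => zero_le_one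
    have hE1 : m * W ≤ E := by
      rw [hW, hE, ← primFamM_smul]
      refine primFamM_mono _ _ _ _ _ fun q χ h1 h2 _ _ => ?_
      rw [mul_one]
      exact (hq q h1 h2).1
    have hE2 : E ≤ (1 + δ) * m * W := by
      rw [hW, hE, ← primFamM_smul]
      refine primFamM_mono _ _ _ _ _ fun q χ h1 h2 _ _ => ?_
      rw [mul_one]
      exact (hq q h1 h2).2
    have hN1 : E - D ≤ N := by
      rw [hE, hD, hN, ← fam_sub]
      refine primFamM_mono _ _ _ _ _ fun q χ _ _ _ _ => ?_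
      have := neg_le_abs ((NN (f q χ) t (t + H') : ℝ) - H' / (2 * Real.pi) * Real.log q)
      linarith
    have hown : primFamM M X' Y' (fun q χ => ((own (f q χ) (g q χ) t (t + H')).ncard : ℝ)) ≤
        (1 + δ) * m * G + D := by
      rw [hG, hD, ← primFamM_smul, ← fam_add]
      refine primFamM_mono _ _ _ _ _ fun q χ h1 h2 h3 h4 => ?_
      have hle : ((own (f q χ) (g q χ) t (t + H')).ncard : ℝ) ≤ (NN (f q χ) t (t + H') : ℝ) := by
        exact_mod_cast a1 q χ h1 h3 h4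
      have habs := le_abs_self ((NN (f q χ) t (t + H') : ℝ) - H' / (2 * Real.pi) * Real.log q)
      by_cases hn : (own (f q χ) (g q χ) t (t + H')).ncard = 0
      · rw [hn]
        have hc : 0 ≤ (1 + δ) * m := by positivity
        have h5 : (0 : ℝ) ≤ if (own (f q χ) (g q χ) t (t + H)).Nonempty then 1 else 0 := by
          split_ifs <;> norm_num
        have h6 := mul_nonneg hc h5
        push_cast
        linarith [abs_nonneg ((NN (f q χ) t (t + H') : ℝ) - H' / (2 * Real.pi) * Real.log q)]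
      · have h5 := own_mono (by linarith : t + H' ≤ t + H) (Set.nonempty_of_ncard_ne_zero hn)
        rw [if_pos h5, mul_one]
        have := (hq q h1 h2).2
        linarith
    rw [← hD, ← hE] at a2
    rw [← hN] at a3
    have u1 : 0.30204 * ((1 - δ) * (m * W)) ≤ (1 + δ) * m * G + δ * ((1 + δ) * m * W) := by
      have v1 : (1 - δ) * E ≤ N := by linarith
      have v2 : (1 - δ) * (m * W) ≤ (1 - δ) * E :=
        mul_le_mul_of_nonneg_left hE1 (by rw [hδ]; norm_num)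
      have v3 : δ * E ≤ δ * ((1 + δ) * m * W) := mul_le_mul_of_nonneg_left hE2 hδ0.le
      linarith
    have u2 : m * (0.30204 * (1 - δ) * W) ≤ m * ((1 + δ) * G + δ * (1 + δ) * W) := by
      linarith
    have u3 := le_of_mul_le_mul_left u2 hm0
    have u4 : 0.302 * W ≤ G := by
      rw [hδ] at u3
      linarith
    have e1 := primFamM_lin M X' Y' 0.302 1 (fun _ _ => 1) (fun q χ =>
      if (own (f q χ) (g q χ) t (t + H)).Nonempty then (1 : ℝ) else 0)
    rw [e1, ← hW, ← hG]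
    linarith
  have h1 := blocks hκ hXn hblock X Y le_rfl hXY
  have e1 := primFamM_lin M X Y 0.302 1 (fun _ _ => 1) (fun q χ =>
      if (own (f q χ) (g q χ) t (t + H)).Nonempty then (1 : ℝ) else 0)
  rw [e1] at h1
  linarith

end Pool.Agent.T9h27.R
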