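import Pool.Agent.T9h27.R.Share

/-!
# The pairs of twists: all statements (helper27)
-/

set_option autoImplicit false

open Complex Filter Topology MeasureTheory
open scoped ComplexConjugate

namespace Pool.Agent.T9h27.R

open Pool.Agent.T9h27.Y
open Pool.Agent.T9h27.P
open H385 (primFamM primSetM mem_primSetM primFamM_eq primFamM_mono primFamM_nonneg primFamM_lin IX)
open H370 (zset NN Ns Nd mult)

section

variable {m₁ m₂ : ℕ} [NeZero m₁] [NeZero m₂]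

/-- the two functions are entire and not zero -/
lemma memL {ψ₁ : DirichletCharacter ℂ m₁} {ψ₂ : DirichletCharacter ℂ m₂}
    (h₁ : ψ₁.IsPrimitive) (h₂ : ψ₂.IsPrimitive) (q : ℕ) (χ : DirichletCharacter ℂ q)
    (h2 : 2 ≤ q) (hq : Nat.Coprime q (m₁ * m₂)) (hχ : χ.IsPrimitive) :
    (Differentiable ℂ (Lf (tm χ ψ₁)) ∧ ∃ s, Lf (tm χ ψ₁) s ≠ 0) ∧
        Differentiable ℂ (Lf (tm χ ψ₂)) ∧ ∃ s, Lf (tm χ ψ₂) s ≠ 0 := by
  have : NeZero q := ⟨by omega⟩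
  have : NeZero (q * m₁) := ⟨mul_ne_zero (NeZero.ne q) (NeZero.ne m₁)⟩
  have : NeZero (q * m₂) := ⟨mul_ne_zero (NeZero.ne q) (NeZero.ne m₂)⟩
  have n1 : tm χ ψ₁ ≠ 1 := tm_ne_one h2 hχ h₁
    (Nat.Coprime.coprime_dvd_right (dvd_mul_right _ _) hq)
  have n2 : tm χ ψ₂ ≠ 1 := tm_ne_one h2 hχ h₂
    (Nat.Coprime.coprime_dvd_right (dvd_mul_left _ _) hq)
  rw [Lf_eq, Lf_eq]
  exact ⟨⟨DirichletCharacter.differentiable_LFunction n1, 2,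
    DirichletCharacter.LFunction_ne_zero_of_one_le_re _ (Or.inl n1) (by norm_num)⟩,
    DirichletCharacter.differentiable_LFunction n2, 2,
    DirichletCharacter.LFunction_ne_zero_of_one_le_re _ (Or.inl n2) (by norm_num)⟩

open Classical in
/-- **everything** -/
theorem top {ψ₁ : DirichletCharacter ℂ m₁} {ψ₂ : DirichletCharacter ℂ m₂}
    (h₁ : ψ₁.IsPrimitive) (h₂ : ψ₂.IsPrimitive) (hne : tm ψ₁ ψ₂⁻¹ ≠ 1) :
    ∃ κ : ℝ, 2 ≤ κ ∧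
      (∀ X Y : ℕ, 1 ≤ X → κ * X ≤ Y → 1 ≤ primFamM (m₁ * m₂) X Y (fun _ _ => 1)) ∧
      (∀ δ : ℝ, 0 < δ → ∃ B η X₀ : ℝ, 0 < B ∧ 0 < η ∧ 1 ≤ X₀ ∧ ∀ X Y : ℕ, X₀ ≤ (X : ℝ) →
        κ * (X : ℝ) ≤ (Y : ℝ) → ∀ t H : ℝ, |t| ≤ (X : ℝ) ^ η → B ≤ H * Real.log X →
        H ≤ (X : ℝ) ^ η →
        (∀ (q : ℕ) (χ : DirichletCharacter ℂ q), X < q → Nat.Coprime q (m₁ * m₂) →
          χ.IsPrimitive → (zset (FF ψ₁ ψ₂ q χ) t (t + H)).Finite) ∧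
        (primFamM (m₁ * m₂) X Y (fun q χ => |(NN (Lf (tm χ ψ₁)) t (t + H) : ℝ) -
            H / (2 * Real.pi) * Real.log q|) ≤
          δ * primFamM (m₁ * m₂) X Y (fun q _ => H / (2 * Real.pi) * Real.log q) ∧
        primFamM (m₁ * m₂) X Y (fun q χ => |(NN (Lf (tm χ ψ₂)) t (t + H) : ℝ) -
            H / (2 * Real.pi) * Real.log q|) ≤
          δ * primFamM (m₁ * m₂) X Y (fun q _ => H / (2 * Real.pi) * Real.log q)) ∧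
        0.3579 * primFamM (m₁ * m₂) X Y (fun q χ => (NN (FF ψ₁ ψ₂ q χ) t (t + H) : ℝ)) ≤
          primFamM (m₁ * m₂) X Y (fun q χ => (Ns (FF ψ₁ ψ₂ q χ) t (t + H) : ℝ)) ∧
        0.67895 * primFamM (m₁ * m₂) X Y (fun q χ => (NN (FF ψ₁ ψ₂ q χ) t (t + H) : ℝ)) ≤
          primFamM (m₁ * m₂) X Y (fun q χ => (Nd (FF ψ₁ ψ₂ q χ) t (t + H) : ℝ)) ∧
        (0.302 * primFamM (m₁ * m₂) X Y (fun q χ => (NN (Lf (tm χ ψ₁)) t (t + H) : ℝ)) ≤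
          primFamM (m₁ * m₂) X Y (fun q χ =>
            ((own (Lf (tm χ ψ₁)) (Lf (tm χ ψ₂)) t (t + H)).ncard : ℝ)) ∧
        0.302 * primFamM (m₁ * m₂) X Y (fun q χ => (NN (Lf (tm χ ψ₂)) t (t + H) : ℝ)) ≤
          primFamM (m₁ * m₂) X Y (fun q χ =>
            ((own (Lf (tm χ ψ₂)) (Lf (tm χ ψ₁)) t (t + H)).ncard : ℝ))) ∧
        0.3578 * primFamM (m₁ * m₂) X Y (fun q χ => (NN (Lf (tm χ ψ₁)) t (t + H) : ℝ)) ≤
          primFamM (m₁ * m₂) X Y (fun q χ =>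
            ((zset (Lf (tm χ ψ₁)) t (t + H) \ zset (Lf (tm χ ψ₂)) t (t + H)).ncard : ℝ)) ∧
        0.3578 * primFamM (m₁ * m₂) X Y (fun q χ => (NN (Lf (tm χ ψ₂)) t (t + H) : ℝ)) ≤
          primFamM (m₁ * m₂) X Y (fun q χ =>
            ((zset (Lf (tm χ ψ₂)) t (t + H) \ zset (Lf (tm χ ψ₁)) t (t + H)).ncard : ℝ))) ∧
      (∃ B η X₀ : ℝ, 0 < B ∧ 0 < η ∧ 1 ≤ X₀ ∧ ∀ X Y : ℕ, X₀ ≤ (X : ℝ) →
        κ * (X : ℝ) ≤ (Y : ℝ) → ∀ t H : ℝ, |t| ≤ (X : ℝ) ^ η → B ≤ H * Real.log X →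
        0.3579 * primFamM (m₁ * m₂) X Y (fun _ _ => 1) ≤
          primFamM (m₁ * m₂) X Y (fun q χ => if (∃ s ∈ zset (FF ψ₁ ψ₂ q χ) t (t + H),
            s.re = 1 / 2 ∧ mult (FF ψ₁ ψ₂ q χ) s = 1) then 1 else 0) ∧
        0.302 * primFamM (m₁ * m₂) X Y (fun _ _ => 1) ≤
          primFamM (m₁ * m₂) X Y (fun q χ =>
            if (own (Lf (tm χ ψ₁)) (Lf (tm χ ψ₂)) t (t + H)).Nonempty then 1 else 0) ∧
        0.302 * primFamM (m₁ * m₂) X Y (fun _ _ => 1) ≤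
          primFamM (m₁ * m₂) X Y (fun q χ =>
            if (own (Lf (tm χ ψ₂)) (Lf (tm χ ψ₁)) t (t + H)).Nonempty then 1 else 0)) := by
  have hpi := Real.pi_pos
  obtain ⟨κ₀, c0, hms, A0⟩ := both h₁ h₂ hne
  obtain ⟨κ₁, c1, -, -, A1⟩ := micro_pair h₁ h₂ hne
  have hfin : ∀ (q : ℕ) (χ : DirichletCharacter ℂ q) (T1 T2 : ℝ),
      (zset (FF ψ₁ ψ₂ q χ) T1 T2).Finite → (zset (Lf (tm χ ψ₁)) T1 T2).Finite ∧
        (zset (Lf (tm χ ψ₂)) T1 T2).Finite := by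
    intro q χ T1 T2 h
    have hz : zset (FF ψ₁ ψ₂ q χ) T1 T2 = zset (Lf (tm χ ψ₁)) T1 T2 ∪ zset (Lf (tm χ ψ₂)) T1 T2 := by
      ext s
      simp only [zset, Set.mem_setOf_eq, Set.mem_union, FF, mul_eq_zero]
      tauto
    rw [hz] at h
    exact ⟨h.subset Set.subset_union_left, h.subset Set.subset_union_right⟩
  have S1 := share (M := m₁ * m₂) c0 (f := fun _ χ => Lf (tm χ ψ₁)) (g := fun _ χ => Lf (tm χ ψ₂))
    (fun δ hδ => by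
      obtain ⟨B, η, X₀, a1, a2, a3, A⟩ := A0 δ hδ
      refine ⟨B, η, X₀, a1, a2, a3, fun X Y hX hXY t H ht hB hH => ?_⟩
      have hXn : 1 ≤ X := by exact_mod_cast a3.trans hX
      obtain ⟨b1, ⟨b2, -⟩, -, -, ⟨b3, -⟩, -⟩ := A X Y hX hXY t H ht hB hH
      refine ⟨fun q χ u1 u2 u3 => ?_, b2, b3⟩
      obtain ⟨⟨v1, v2⟩, -⟩ := memL h₁ h₂ q χ (by omega) u2 u3
      exact own_le v1 v2 (hfin q χ _ _ (b1 q χ u1 u2 u3)).1)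
  have S2 := share (M := m₁ * m₂) c0 (f := fun _ χ => Lf (tm χ ψ₂)) (g := fun _ χ => Lf (tm χ ψ₁))
    (fun δ hδ => by
      obtain ⟨B, η, X₀, a1, a2, a3, A⟩ := A0 δ hδ
      refine ⟨B, η, X₀, a1, a2, a3, fun X Y hX hXY t H ht hB hH => ?_⟩
      have hXn : 1 ≤ X := by exact_mod_cast a3.trans hX
      obtain ⟨b1, ⟨-, b2⟩, -, -, ⟨-, b3⟩, -⟩ := A X Y hX hXY t H ht hB hH
      refine ⟨fun q χ u1 u2 u3 => ?_, b2, b3⟩
      obtain ⟨-, v1, v2⟩ := memL h₁ h₂ q χ (by omega) u2 u3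
      exact own_le v1 v2 (hfin q χ _ _ (b1 q χ u1 u2 u3)).2)
  have m0 : ∀ X Y : ℕ, max κ₀ κ₁ * (X : ℝ) ≤ Y → κ₀ * (X : ℝ) ≤ Y ∧ κ₁ * (X : ℝ) ≤ Y :=
    fun X Y h => ⟨le_trans (mul_le_mul_of_nonneg_right (le_max_left _ _) (Nat.cast_nonneg _)) h,
      le_trans (mul_le_mul_of_nonneg_right (le_max_right _ _) (Nat.cast_nonneg _)) h⟩
  refine ⟨max κ₀ κ₁, c0.trans (le_max_left _ _), fun X Y hX hXY => hms X Y hX (m0 X Y hXY).1,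
    fun δ hδ => ?_, ?_⟩
  · obtain ⟨B, η, X₀, a1, a2, a3, A⟩ := A0 δ hδ
    refine ⟨B, η, X₀, a1, a2, a3, fun X Y hX hXY t H ht hB hH => ?_⟩
    obtain ⟨b1, b2, b3, b4, ⟨b5, b6⟩, b7⟩ := A X Y hX (m0 X Y hXY).1 t H ht hB hH
    have n1 : 0 ≤ primFamM (m₁ * m₂) X Y (fun q χ => (NN (Lf (tm χ ψ₁)) t (t + H) : ℝ)) :=
      primFamM_nonneg _ _ _ _ fun _ _ => Nat.cast_nonneg _
    have n2 : 0 ≤ primFamM (m₁ * m₂) X Y (fun q χ => (NN (Lf (tm χ ψ₂)) t (t + H) : ℝ)) :=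
      primFamM_nonneg _ _ _ _ fun _ _ => Nat.cast_nonneg _
    exact ⟨b1, b2, b3, b4, ⟨by linarith, by linarith⟩, b7⟩
  · obtain ⟨B₁, η₁, X₁, p1, q1, r1, A1⟩ := A1
    obtain ⟨B₂, η₂, X₂, p2, q2, r2, S1⟩ := S1
    obtain ⟨B₃, η₃, X₃, p3, q3, r3, S2⟩ := S2
    refine ⟨max B₁ (max B₂ B₃), min η₁ (min η₂ η₃), max X₁ (max X₂ X₃),
      p1.trans_le (le_max_left _ _), lt_min q1 (lt_min q2 q3), r1.trans (le_max_left _ _),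
      fun X Y hX hXY t H ht hB => ?_⟩
    have hX1 : X₁ ≤ (X : ℝ) := (le_max_left _ _).trans hX
    have hX2 : X₂ ≤ (X : ℝ) := ((le_max_left _ _).trans (le_max_right _ _)).trans hX
    have hX3 : X₃ ≤ (X : ℝ) := ((le_max_right _ _).trans (le_max_right _ _)).trans hX
    have hXr : (1 : ℝ) ≤ X := r1.trans hX1
    have n1 : (X : ℝ) ^ min η₁ (min η₂ η₃) ≤ (X : ℝ) ^ η₁ :=
      Real.rpow_le_rpow_of_exponent_le hXr (min_le_left _ _)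
    have n2 : (X : ℝ) ^ min η₁ (min η₂ η₃) ≤ (X : ℝ) ^ η₂ :=
      Real.rpow_le_rpow_of_exponent_le hXr ((min_le_right _ _).trans (min_le_left _ _))
    have n3 : (X : ℝ) ^ min η₁ (min η₂ η₃) ≤ (X : ℝ) ^ η₃ :=
      Real.rpow_le_rpow_of_exponent_le hXr ((min_le_right _ _).trans (min_le_right _ _))
    exact ⟨A1 X Y hX1 (m0 X Y hXY).2 t H (ht.trans n1) ((le_max_left _ _).trans hB),
      S1 X Y hX2 (m0 X Y hXY).1 t H (ht.trans n2)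
        (((le_max_left _ _).trans (le_max_right _ _)).trans hB),
      S2 X Y hX3 (m0 X Y hXY).1 t H (ht.trans n3)
        (((le_max_right _ _).trans (le_max_right _ _)).trans hB)⟩

end

end Pool.Agent.T9h27.R
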